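import Pool.Agent.H36.ENR.Stmts2

/-!
# Board enr, row GP2
-/

set_option autoImplicit false

namespace Pool.ENR

open Pool.Agent.H81.ENG Pool.Agent.H55.NEU

theorem gp2_thm (hCSY : CSYStmt) (hFUU : FUUStmt) (hSE1 : SE1Stmt) (hSCJ : SCJStmt) :
    GP2Stmt := by
  intro F _ _ p r f _ hp hpr hf hcard hnd σ N m h1 h2
  left
  obtain ⟨h, hh⟩ := hFUU F p r f N σ hp hf hcard
    (by rw [hCSY F r f hf hcard]; exact hnd) h1
  refine hSCJ (PS F) p m σ (MulAut.conj h) ?_
  refine hSE1 F p r f N m _ hp hpr hf hcard ?_ ?_ hh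
  · rw [conj_pow, h1, mul_one, mul_inv_cancel]
  · intro h3
    rw [conj_pow] at h3
    apply h2
    have h4 := mul_inv_eq_one.1 h3
    exact mul_left_cancel (h4.trans (mul_one _).symm)

end Pool.ENR
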