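import Pool.Agent.H29.ENR.Stmts9
import Pool.Agent.H22.ENR.GSL

/-!
# Row GSM of the board `enr`: as row GSL (`H22/ENR/GSL.lean`, whose proof is copied), with the
exponent of the power map congruent to 1 mod `p` by hypothesis
-/

set_option autoImplicit false

namespace Pool.ENR

open Pool.Agent.H81.ENG

open GSL in
theorem gsm_thm (hQTL : QTLStmt) (hGRL : GRLStmt) (hMOD : MODStmt) : GSMStmt := by
  intro T _ _ p c σ hp hp2 hc ⟨A, n, k, lam, hA, hAc, hlam, hAσ, hAn, hnk, hpk, haA, x, hxA, hxn⟩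
  classical
  have hk0 : 0 < k := Nat.pos_of_ne_zero (by rintro rfl; exact hpk (dvd_zero p))
  let _ : CommGroup A :=
    { (inferInstance : Group A) with
      mul_comm := fun x y => Subtype.ext (hAc x x.2 y y.2) }
  have hcjA : ∀ x : A, n * x * n⁻¹ ∈ A := fun x => (hAn x).mp x.2
  let α : Additive A →+ Additive A :=
    MonoidHom.toAdditive (MonoidHom.mk' (fun x : A => (⟨n * x * n⁻¹, hcjA x⟩ : A)) (by
      intro x y
      apply Subtype.ext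
      show n * (x * y) * n⁻¹ = (n * x * n⁻¹) * (n * y * n⁻¹)
      group))
  have hα : ∀ x : A, α (Additive.ofMul x) = Additive.ofMul ⟨n * x * n⁻¹, hcjA x⟩ := fun x => rfl
  have hα' : ∀ x : Additive A, ((Additive.toMul (α x) : A) : T) = n * (Additive.toMul x : A) * n⁻¹ :=
    fun x => rfl
  have hαi : ∀ (k : ℕ) (x : A),
      ((Additive.toMul (α^[k] (Additive.ofMul x)) : A) : T) = n ^ k * x * (n ^ k)⁻¹ := by
    intro k
    induction k with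
    | zero => intro x; simp
    | succ k ih =>
      intro x
      rw [Function.iterate_succ_apply, hα, ih]
      show n ^ k * (n * x * n⁻¹) * (n ^ k)⁻¹ = _
      rw [pow_succ]
      group
  have hαk : ∀ x : Additive A, α^[k] x = x := by
    intro x
    have h1 := hαi k (Additive.toMul x)
    rw [hnk] at h1
    apply Additive.toMul.injective
    apply Subtype.ext
    rw [ofMul_toMul] at h1
    rw [h1]
    group
  have hpM : ∀ x : Additive A, ∃ j : ℕ, p ^ j • x = 0 := by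
    intro x
    obtain ⟨j, hj⟩ := hA (Additive.toMul x)
    exact ⟨j, by rw [← ofMul_toMul x, ← ofMul_pow, hj, ofMul_one]⟩
  -- the element `z`
  let X : Additive A := Additive.ofMul (⟨x, hxA⟩ : A)
  have hX : α (p ^ (c - 1) • X) ≠ p ^ (c - 1) • X := by
    show α (p ^ (c - 1) • Additive.ofMul (⟨x, hxA⟩ : A)) ≠
      p ^ (c - 1) • Additive.ofMul (⟨x, hxA⟩ : A)
    rw [← ofMul_pow, hα]
    intro h1
    apply hxn
    have h2 : n * x ^ (p ^ (c - 1)) * n⁻¹ = x ^ (p ^ (c - 1)) :=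
      congrArg Subtype.val (Additive.ofMul.injective h1)
    calc n * x ^ (p ^ (c - 1)) = n * x ^ (p ^ (c - 1)) * n⁻¹ * n := by group
      _ = _ := by rw [h2]
  have hex : ∃ i : ℕ, p ^ i • (p ^ (c - 1) • (α X - X)) = 0 := hpM _
  obtain ⟨i, hi1, hi2⟩ : ∃ i : ℕ, p ^ i • (p ^ (c - 1) • (α X - X)) ≠ 0 ∧
      p ^ (i + 1) • (p ^ (c - 1) • (α X - X)) = 0 := by
    have h0 : Nat.find hex ≠ 0 := by
      intro h0
      have h1 := Nat.find_spec hex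
      rw [h0, pow_zero, one_nsmul, smul_sub, sub_eq_zero, ← map_nsmul] at h1
      exact hX h1
    refine ⟨Nat.find hex - 1, Nat.find_min hex (by omega), ?_⟩
    rw [Nat.sub_add_cancel (Nat.pos_of_ne_zero h0)]
    exact Nat.find_spec hex
  obtain ⟨w₂, hw₂⟩ : ∃ w₂, w₂ = p ^ i • X := ⟨_, rfl⟩
  obtain ⟨z, hz⟩ : ∃ z, z = α w₂ - w₂ := ⟨_, rfl⟩
  have hzi : z = p ^ i • (α X - X) := by rw [hz, hw₂, map_nsmul, smul_sub]
  have hz1 : p ^ c • z = 0 := by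
    have h1 : p ^ c • z = p ^ (i + 1) • (p ^ (c - 1) • (α X - X)) := by
      rw [hzi, smul_smul, smul_smul, ← pow_add, ← pow_add]
      congr 2
      omega
    rw [h1, hi2]
  have hz0 : p ^ (c - 1) • z ≠ 0 := by
    rw [hzi, smul_comm]
    exact hi1
  have hz2 : α (p ^ (c - 1) • z) ≠ p ^ (c - 1) • z := by
    intro h1
    have h2 : p ^ (c - 1) • z = α (p ^ (c - 1) • w₂) - p ^ (c - 1) • w₂ := by
      rw [hz, smul_sub, map_nsmul]
    apply hz0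
    rw [h2]
    rw [h2] at h1
    exact cap α hpM hp hpk hαk _ h1
  obtain ⟨R, _, N₁, π₁, ζ, hR, hπs, hNα, ⟨hzN, hπz⟩, hπα, hζu, hζk⟩ :=
    hMOD (Additive A) p c k α z hp hc hpk hαk hz1 hz2
  obtain ⟨N, π, hN1, hπ1, hext⟩ := ext α N₁ π₁ ζ hNα hπα hζu
  -- the element `t`
  obtain ⟨a₀, w₁, ha₀, ha⟩ := split α hpM hp hpk hαk (Additive.ofMul (⟨σ n * n⁻¹, haA⟩ : A))
  obtain ⟨t, ht⟩ : ∃ t : A, Additive.ofMul t = w₁ - w₂ := ⟨Additive.toMul (w₁ - w₂), rfl⟩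
  refine ⟨t, fun b hb d hL => ?_⟩
  have hσ' : ∀ y ∈ A, (MulAut.conj (t : T) * σ) y = y ^ lam := by
    intro y hy
    rw [MulAut.mul_apply, MulAut.conj_apply, hAσ y hy, hAc t t.2 _ (A.pow_mem hy lam),
      mul_inv_cancel_right]
  -- `σ' n = a' n`
  obtain ⟨a', ha'⟩ : ∃ a' : A, (a' : T) = (MulAut.conj (t : T) * σ) n * n⁻¹ ∧
      Additive.ofMul a' = a₀ + z := by
    refine ⟨t * ⟨σ n * n⁻¹, haA⟩ * ⟨n * (t⁻¹ : A) * n⁻¹, hcjA t⁻¹⟩, ?_, ?_⟩
    · show (t : T) * (σ n * n⁻¹) * (n * (t : T)⁻¹ * n⁻¹) = _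
      rw [MulAut.mul_apply, MulAut.conj_apply]
      group
    · rw [ofMul_mul, ofMul_mul, ← hα, ofMul_inv, map_neg, ht, ha, hz, map_sub]
      abel
  let N' : Subgroup T :=
    { carrier := {x | ∃ h : x ∈ A, (Additive.ofMul (⟨x, h⟩ : A)) ∈ N}
      one_mem' := ⟨A.one_mem, N.zero_mem⟩
      mul_mem' := by
        rintro x y ⟨hx, hx'⟩ ⟨hy, hy'⟩
        exact ⟨A.mul_mem hx hy, N.add_mem hx' hy'⟩
      inv_mem' := by
        rintro x ⟨hx, hx'⟩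
        exact ⟨A.inv_mem hx, N.neg_mem hx'⟩ }
  let f : T → R := fun x =>
    if h : ∃ h : x ∈ A, (Additive.ofMul (⟨x, h⟩ : A)) ∈ N then
      π ⟨Additive.ofMul (⟨x, h.choose⟩ : A), h.choose_spec⟩ else 0
  have hf : ∀ (x : T) (hx : x ∈ A) (hx' : (Additive.ofMul (⟨x, hx⟩ : A)) ∈ N),
      f x = π ⟨Additive.ofMul (⟨x, hx⟩ : A), hx'⟩ := by
    intro x hx hx'
    exact dif_pos (⟨hx, hx'⟩ : ∃ h : x ∈ A, (Additive.ofMul (⟨x, h⟩ : A)) ∈ N)
  have hmul : ∀ x ∈ N', ∀ y ∈ N', f (x * y) = f x + f y := by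
    rintro x ⟨hx, hx'⟩ y ⟨hy, hy'⟩
    rw [hf x hx hx', hf y hy hy', hf (x * y) (A.mul_mem hx hy) (N.add_mem hx' hy'), ← map_add]
    rfl
  have hcj : ∀ x ∈ N', n * x * n⁻¹ ∈ N' ∧ f (n * x * n⁻¹) = ζ * f x := by
    rintro x ⟨hx, hx'⟩
    have h1 : n * x * n⁻¹ ∈ A := hcjA ⟨x, hx⟩
    have h2 : Additive.ofMul (⟨n * x * n⁻¹, h1⟩ : A) ∈ N := hN1 _ hx'
    refine ⟨⟨h1, h2⟩, ?_⟩
    rw [hf _ h1 h2, hf x hx hx']
    exact hπ1 ⟨_, hx'⟩ ⟨_, h2⟩ rfl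
  have hcji : ∀ (k : ℕ) (x : T), x ∈ N' →
      n ^ k * x * (n ^ k)⁻¹ ∈ N' ∧ f (n ^ k * x * (n ^ k)⁻¹) = ζ ^ k * f x := by
    intro k x hx
    induction k with
    | zero => simpa using hx
    | succ k ih =>
      have h1 := hcj _ ih.1
      have h2 : n ^ (k + 1) * x * (n ^ (k + 1))⁻¹ = n * (n ^ k * x * (n ^ k)⁻¹) * n⁻¹ := by
        rw [pow_succ']; group
      rw [h2]
      refine ⟨h1.1, ?_⟩
      rw [h1.2, ih.2, pow_succ', mul_assoc]
  -- values of `f`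
  have hval : ∀ (x y : Additive A) (_ : α x = x) (hy : y ∈ N₁),
      ((Additive.toMul (x + y) : A) : T) ∈ N' ∧
      f ((Additive.toMul (x + y) : A) : T) = π₁ ⟨y, hy⟩ := by
    intro x y hx hy
    obtain ⟨h1, h2⟩ := hext x y hx hy
    refine ⟨⟨(Additive.toMul (x + y) : A).2, h1⟩, ?_⟩
    rw [hf _ (Additive.toMul (x + y) : A).2 h1]
    exact h2
  have hsur : ∀ y : R, ∃ x ∈ N', f x = y := by
    intro y
    obtain ⟨⟨x, hx⟩, rfl⟩ := hπs y
    obtain ⟨h1, h2⟩ := hval 0 x (map_zero α) hx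
    exact ⟨_, h1, h2⟩
  have ha'N : (a' : T) ∈ N' ∧ f a' = 1 := by
    obtain ⟨h1, h2⟩ := hval a₀ z ha₀ hzN
    rw [← ha'.2] at h1 h2
    exact ⟨h1, by rw [← hπz]; exact h2⟩
  have hGD1 : GD N' n f ζ k := by
    refine ⟨hk0, hnk, hmul, hcj, ?_, hsur, ?_⟩
    · rintro x ⟨hx, -⟩ y ⟨hy, -⟩
      exact hAc x hx y hy
    · rintro i ⟨hi, -⟩
      obtain ⟨j, hj⟩ := hA ⟨_, hi⟩
      have h1 : (n ^ i) ^ (p ^ j) = 1 := congrArg Subtype.val hj
      have h2 : (n ^ i) ^ k = 1 := by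
        rw [← pow_mul, mul_comm, pow_mul, hnk, one_pow]
      exact eq_one_coprime h1 h2 (Nat.Coprime.pow_left _ ((Nat.Prime.coprime_iff_not_dvd hp).mpr hpk))
  have hR1 : (1 : R) ≠ 0 := by
    intro h0
    apply hR.2.2.1
    rw [← one_mul ((p : R) ^ (c - 1)), h0, zero_mul]
  have hζ1 : ζ ≠ 1 := by
    rintro rfl
    rw [sub_self] at hζu
    exact hR1 (isUnit_zero_iff.mp hζu).symm
  have hom : orderOf ζ ∣ k := orderOf_dvd_of_pow_eq_one hζk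
  have ho1 : orderOf ζ ≠ 1 := fun h0 => hζ1 (orderOf_eq_one_iff.mp h0)
  have ho0 : 0 < orderOf ζ := Nat.pos_of_dvd_of_pos hom hk0
  set r := Nat.minFac (orderOf ζ) with hrdef
  have hr : r.Prime := Nat.minFac_prime ho1
  have hro : r ∣ orderOf ζ := Nat.minFac_dvd _
  obtain ⟨k₁, hk₁⟩ := hro
  have hk₁0 : k₁ ≠ 0 := by
    rintro rfl
    rw [mul_zero] at hk₁
    omega
  have hrp : r ≠ p := by
    rintro h0
    apply hpk
    rw [← h0]
    exact (Dvd.intro _ hk₁.symm).trans hom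
  have hζr : (ζ ^ k₁) ^ r = 1 := by
    rw [← pow_mul, mul_comm, ← hk₁, pow_orderOf_eq_one]
  have hζk₁ : ζ ^ k₁ ≠ 1 := by
    apply pow_ne_one_of_lt_orderOf hk₁0
    rw [hk₁]
    have := hr.one_lt
    nlinarith [Nat.pos_of_ne_zero hk₁0]
  have hζku : IsUnit (ζ ^ k₁ - 1) := by
    rcases hR.2.2.2 (ζ ^ k₁ - 1) with h0 | ⟨y, hy⟩
    · exact h0
    · exfalso
      apply hζk₁
      have h1 : (p : R) ∣ ζ ^ k₁ - 1 := ⟨y, hy⟩
      have h2 := dvd_sub_pow_of_dvd_sub h1 (c - 1)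
      rw [Nat.sub_add_cancel hc, hR.2.1, zero_dvd_iff, one_pow, sub_eq_zero] at h2
      exact eq_one_coprime h2 hζr
        (Nat.Coprime.pow_left _ ((Nat.coprime_primes hp hr).mpr hrp.symm))
  have hGD : GD N' (n ^ k₁) f (ζ ^ k₁) k := by
    refine ⟨hk0, ?_, hmul, fun x hx => hcji k₁ x hx, hGD1.com, hsur, ?_⟩
    · rw [← pow_mul, mul_comm, pow_mul, hnk, one_pow]
    · intro i hi
      rw [← pow_mul] at hi ⊢
      exact hGD1.tr _ hi
  have hσn : (MulAut.conj (t : T) * σ) n = a' * n := by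
    rw [ha'.1, inv_mul_cancel_right]
  obtain ⟨a₂, ha₂N, ha₂, hfa₂⟩ := sigpow hGD1 (MulAut.conj (t : T) * σ) ha'N.1 hσn k₁
  have hu : IsUnit (f a₂) := by
    rw [hfa₂, ha'N.2, mul_one]
    have h1 : (ζ - 1) * ∑ l ∈ Finset.range k₁, ζ ^ l = ζ ^ k₁ - 1 := mul_geom_sum ζ k₁
    rw [← h1] at hζku
    exact isUnit_of_mul_isUnit_right hζku
  exact core hGD hQTL hGRL (MulAut.conj (t : T) * σ) hp hp2 hr hrp hb hc hR hζr hζku
    (fun y hy => hσ' y hy.1) hlam ha₂N ha₂ hu d hL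

end Pool.ENR
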