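import Pool.Agent.H29.ENR.Stmts

/-!
Row LIF of the board enr (MP_d15c96_al): lifting modulo powers of `p`.
-/

set_option autoImplicit false

namespace Pool.ENR

theorem LIF_step (B : Type) [CommRing B] (p : ℕ) (x : B) (m : ℕ) (hp : p.Prime)
    (h : ∃ (t : ℕ) (y : B), x ^ t * (x ^ m - 1) = p * y) (i : ℕ) :
    ∃ (t : ℕ) (y : B), x ^ t * (x ^ (m * p ^ i) - 1) = (p : B) ^ (i + 1) * y := by
  induction i with
  | zero =>
    obtain ⟨t, y, e⟩ := h
    refine ⟨t, y, ?_⟩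
    rw [pow_zero, mul_one, zero_add, pow_one, e]
  | succ i ih =>
    obtain ⟨t, y, e⟩ := ih
    obtain ⟨r, hr⟩ := exists_add_pow_prime_eq hp (1 : B) (x ^ (m * p ^ i) - 1)
    have e0 : (1 : B) + (x ^ (m * p ^ i) - 1) = x ^ (m * p ^ i) := by ring
    rw [e0, one_pow, ← pow_mul] at hr
    have e1 : m * p ^ i * p = m * p ^ (i + 1) := by ring
    rw [e1] at hr
    obtain ⟨p', rfl⟩ : ∃ p', p = p' + 2 := ⟨p - 2, by have := hp.two_le; omega⟩
    set q : B := ((p' + 2 : ℕ) : B) with hq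
    set E : B := x ^ (m * (p' + 2) ^ i) - 1 with hE
    refine ⟨t * (p' + 2), q ^ ((i + 1) * (p' + 1) - 1) * y ^ (p' + 2) +
      x ^ (t * (p' + 1)) * r * y, ?_⟩
    have a1 : x ^ (t * (p' + 2)) * E ^ (p' + 2) = q ^ (i + 1 + 1) *
        (q ^ ((i + 1) * (p' + 1) - 1) * y ^ (p' + 2)) := by
      have b1 : i + 1 + 1 + ((i + 1) * (p' + 1) - 1) = (i + 1) * (p' + 2) := by
        have : 1 ≤ (i + 1) * (p' + 1) := Nat.one_le_iff_ne_zero.mpr (by positivity)
        have c1 : (i + 1) * (p' + 2) = (i + 1) * (p' + 1) + (i + 1) := by ring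
        omega
      rw [← mul_assoc, ← pow_add, b1, pow_mul, pow_mul, ← mul_pow, ← mul_pow, e]
    have a2 : x ^ (t * (p' + 2)) = x ^ (t * (p' + 1)) * x ^ t := by
      rw [← pow_add]
      ring
    calc x ^ (t * (p' + 2)) * (x ^ (m * (p' + 2) ^ (i + 1)) - 1)
        = x ^ (t * (p' + 2)) * E ^ (p' + 2) + x ^ (t * (p' + 2)) * (q * E * r) := by
          rw [hr]; ring
      _ = q ^ (i + 1 + 1) * (q ^ ((i + 1) * (p' + 1) - 1) * y ^ (p' + 2)) +
          x ^ (t * (p' + 1)) * q * r * (x ^ t * E) := by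
          rw [a1]
          congr 1
          rw [a2]
          ring
      _ = q ^ (i + 1 + 1) * (q ^ ((i + 1) * (p' + 1) - 1) * y ^ (p' + 2) +
          x ^ (t * (p' + 1)) * r * y) := by
          rw [e]
          ring

theorem lif_thm : LIFStmt := by
  intro B _ p c x t m hp hc h0 h
  obtain ⟨y, hy⟩ := h
  obtain ⟨t', y', e⟩ := LIF_step B p x m hp ⟨t, y, hy⟩ (c - 1)
  have hc' : c - 1 + 1 = c := by omega
  rw [hc', h0, zero_mul] at e
  refine ⟨t', ?_⟩
  rw [pow_add]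
  have e2 : x ^ t' * x ^ (m * p ^ (c - 1)) = x ^ t' * (x ^ (m * p ^ (c - 1)) - 1) + x ^ t' := by
    ring
  rw [e2, e, zero_add]

end Pool.ENR
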