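import Pool.Agent.H29.ENR.Stmts6

/-!
Board enr, row PB3.
-/

set_option autoImplicit false
set_option linter.style.haveILetI false

namespace Pool.ENR

open Pool.Agent.H81.ENG

theorem pb3_prime {S : Type} [Group S] [Finite S] (hs : IsSimpleGroup S)
    (hn : ¬ ∀ a c : S, a * c = c * a) {p : ℕ} (hp : p.Prime) :
    ∃ r : ℕ, r.Prime ∧ r ≠ p ∧ r ∣ Nat.card S := by
  by_contra hcon
  push Not at hcon
  apply hn
  haveI : Fact p.Prime := ⟨hp⟩
  have h1 : Nat.card S = p ^ (Nat.card S).primeFactorsList.length :=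
    Nat.eq_prime_pow_of_unique_prime_dvd Nat.card_pos.ne' (fun {r} hr hd => by
      by_contra hrp
      exact hcon r hr hrp hd)
  have h2 : IsPGroup p S := IsPGroup.of_card h1
  haveI : Nontrivial S := hs.toNontrivial
  have h3 : Nontrivial (Subgroup.center S) := h2.center_nontrivial
  rcases hs.eq_bot_or_eq_top_of_normal (Subgroup.center S) inferInstance with h4 | h4
  · exfalso
    rw [h4] at h3
    exact not_nontrivial _ h3
  · intro a c
    have h5 : c ∈ Subgroup.center S := by rw [h4]; exact Subgroup.mem_top _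
    rw [Subgroup.mem_center_iff] at h5
    exact h5 a

theorem pb3_thm (hPRD : PRDStmt) (hCHG : CHGStmt) (hPB1 : PB1Stmt) (hPB2 : PB2Stmt) :
    PB3Stmt := by
  intro G _ _ p N v d S y hp hy hSs hSn hD hL hv
  classical
  set K := Subgroup.normalizer (S : Set G) with hK
  have hKmem : ∀ g, g ∈ K ↔ ∀ t, t ∈ S ↔ g * t * g⁻¹ ∈ S := fun g => Subgroup.mem_normalizer_iff
  have hex : ∃ b, y ^ (p ^ b) ∈ K := ⟨N, by rw [hy]; exact K.one_mem⟩
  obtain ⟨b, hbK, hbmin⟩ : ∃ b, y ^ (p ^ b) ∈ K ∧ ∀ e < b, y ^ (p ^ e) ∉ K :=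
    ⟨Nat.find hex, Nat.find_spec hex, fun e he => Nat.find_min hex he⟩
  obtain ⟨k, hk⟩ : ∃ k, k = p ^ b := ⟨_, rfl⟩
  rw [← hk] at hbK
  have hk0 : 0 < k := by rw [hk]; exact pow_pos hp.pos b
  have hnot : ∀ i, 0 < i → i < k → y ^ i ∉ K := by
    intro i hi hik hmem
    have hg : y ^ (Nat.gcd i (p ^ N)) ∈ K := by
      have h1 : (y ^ (Nat.gcd i (p ^ N)) : G) = (y ^ i) ^ (Nat.gcdA i (p ^ N)) *
          (y ^ (p ^ N)) ^ (Nat.gcdB i (p ^ N)) := by
        rw [← zpow_natCast, Nat.gcd_eq_gcd_ab, zpow_add, zpow_mul, zpow_mul, zpow_natCast,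
          zpow_natCast]
      rw [h1, hy, one_zpow, mul_one]
      exact K.zpow_mem hmem _
    obtain ⟨e, -, he⟩ := (Nat.dvd_prime_pow hp).mp (Nat.gcd_dvd_right i (p ^ N))
    rw [he] at hg
    have h2 : p ^ e ∣ i := he ▸ Nat.gcd_dvd_left i (p ^ N)
    have h3 : p ^ e < p ^ b := by
      rw [← hk]
      exact lt_of_le_of_lt (Nat.le_of_dvd hi h2) hik
    have h4 : e < b := (Nat.pow_lt_pow_iff_right hp.one_lt).mp h3
    exact hbmin e h4 hg
  have hkK := (hKmem _).1 hbK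
  have hnotK : ∀ i, 0 < i → i < k → ¬ ∀ x, x ∈ S ↔ y ^ i * x * (y ^ i)⁻¹ ∈ S := by
    intro i hi hik h
    exact hnot i hi hik ((hKmem _).2 h)
  have hcenS : ¬ ∀ a c : S, a * c = c * a := by
    intro h
    apply hSn
    intro a ha c hc
    exact congrArg Subtype.val (h ⟨a, ha⟩ ⟨c, hc⟩)
  have hcen : ∀ t ∈ S, (∀ s ∈ S, s * t = t * s) → t = 1 := by
    intro t ht hs
    have h1 : (⟨t, ht⟩ : S) ∈ Subgroup.center S := by
      rw [Subgroup.mem_center_iff]
      intro g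
      exact Subtype.ext (hs g g.2)
    rcases hSs.eq_bot_or_eq_top_of_normal (Subgroup.center S) inferInstance with h2 | h2
    · rw [h2, Subgroup.mem_bot] at h1
      exact congrArg Subtype.val h1
    · exfalso
      apply hSn
      intro a ha b hb
      have h3 : (⟨b, hb⟩ : S) ∈ Subgroup.center S := by rw [h2]; exact Subgroup.mem_top _
      rw [Subgroup.mem_center_iff] at h3
      exact congrArg Subtype.val (h3 ⟨a, ha⟩)
  -- the automorphism
  have hres : ∀ t, t ∈ S ↔ MulAut.conj (y ^ k)⁻¹ t ∈ S := by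
    intro t
    rw [MulAut.conj_apply]
    have h1 := K.inv_mem hbK
    rw [hKmem] at h1
    exact h1 t
  obtain ⟨α, hαdef⟩ : ∃ α : MulAut S, α = restr (MulAut.conj (y ^ k)⁻¹) S hres := ⟨_, rfl⟩
  have hα : ∀ t : S, ((α t : S) : G) = (y ^ k)⁻¹ * t * y ^ k := by
    intro t
    rw [hαdef]
    show MulAut.conj (y ^ k)⁻¹ (t : G) = _
    rw [MulAut.conj_apply, inv_inv]
  have hαm : ∀ (m : ℕ) (t : S), (((α ^ m) t : S) : G) = ((y ^ k) ^ m)⁻¹ * t * (y ^ k) ^ m := by
    intro m t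
    rw [hαdef, restr_pow_apply, ← map_pow, MulAut.conj_apply, inv_pow, inv_inv]
  have hαN : α ^ (p ^ N) = 1 := by
    ext t
    rw [hαm, ← pow_mul, mul_comm k, pow_mul, hy, one_pow]
    simp
  have hbv : b ≤ v := by
    by_contra hcon
    push Not at hcon
    obtain ⟨r, hr, hrp, hrd⟩ := pb3_prime hSs hcenS hp
    haveI : Fact r.Prime := ⟨hr⟩
    obtain ⟨t, R, M, hR, hM⟩ := hPB1 S p r N α hp hrp hαN
    have ht' : ((t : G))⁻¹ ∈ S := S.inv_mem t.2
    obtain ⟨g1, g2, g3⟩ := hCHG G y (t : G)⁻¹ S k hk0 hD ht' hkK hnotK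
    have hSL' : SL (tsh (MulAut.conj t * α) k) d := by
      refine hPRD G (y * (t : G)⁻¹) S k hk0 hD hcen g1 g2 (MulAut.conj t * α) ?_ d
        (hL.sl _)
      intro x
      rw [g3 x x.2, MulAut.mul_apply, MulAut.conj_apply, ← hα x, inv_inv]
      rfl
    rw [hk] at hSL'
    have hRc : ¬ p ∣ Nat.card (R : Subgroup S) := by
      obtain ⟨m, hm⟩ := IsPGroup.iff_card.1 R.isPGroup'
      intro h
      rw [hm] at h
      have h1 := hp.dvd_of_dvd_pow h
      exact hrp ((Nat.prime_dvd_prime_iff_eq hp hr).1 h1).symm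
    have h1 := hPB2 S p b M (MulAut.conj t * α) (R : Subgroup S) hp hR
      (R.ne_bot_of_dvd_card hrd) hRc hM d hSL'
    exact hv (dvd_trans (pow_dvd_pow p hcon) h1)
  have hyv : y ^ (p ^ v) = (y ^ k) ^ (p ^ (v - b)) := by
    rw [← pow_mul, hk, ← pow_add]
    congr 2
    omega
  rw [← hKmem, hyv]
  exact K.pow_mem hbK _

end Pool.ENR
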