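import Pool.Agent.H29.ENR.Stmts5
import Pool.Agent.H14.ENR.CYB

/-!
Board enr, row Q3U: the base theorem of type A₄.
-/

set_option autoImplicit false
set_option linter.style.haveILetI false

namespace Pool.ENR

open Pool.Agent.H81.ENG

theorem q3u_thm : Q3UStmt := by
  intro P _ _ V hVn z n τ b hb hVc hV2 hV4 hn3 hgen hτV hτn hzV hτz hττ hzn d hL
  have hk : 0 < 2 ^ b := pow_pos (by norm_num) b
  have hkz : (((2 ^ b : ℕ) : ℤ)) ≠ 0 := by exact_mod_cast hk.ne'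
  haveI : Fact (Nat.Prime 2) := ⟨Nat.prime_two⟩
  haveI : Fact (Nat.Prime 3) := ⟨Nat.prime_three⟩
  let θ : P →* P ⧸ V := QuotientGroup.mk' V
  have hθ1 : ∀ x, θ x = 1 ↔ x ∈ V := fun x => QuotientGroup.eq_one_iff x
  obtain ⟨v₀, hv₀, hτn⟩ := hτn
  have hθτ : ∀ x, θ (τ x) = (θ x)⁻¹ := by
    intro x
    obtain ⟨v, hv, i, rfl⟩ := hgen x
    rw [map_mul, map_mul, map_mul, (hθ1 v).mpr hv, (hθ1 _).mpr (hτV v hv), one_mul, one_mul,
      map_pow, map_pow, map_pow, hτn, map_mul, (hθ1 _).mpr hv₀, one_mul, map_inv, inv_pow]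
  have hz2 : z * z = 1 := by
    rw [← pow_two]
    exact hV2 z hzV
  have hzi : z⁻¹ = z := inv_eq_of_mul_eq_one_right hz2
  have hθn : (θ n) ^ 3 = 1 := by rw [← map_pow, hn3, map_one]
  have h2b : 2 < 2 ^ (b + 1) := by
    calc 2 < 2 ^ (1 + 1) := by norm_num
      _ ≤ 2 ^ (b + 1) := Nat.pow_le_pow_right (by norm_num) (by omega)
  obtain ⟨a, ha0, -, ham, -, hcase⟩ := root_seq (p := 2) (q := 3) Nat.prime_two (by norm_num) h2b
  have hak : ∀ i, a (i + ((2 ^ b : ℕ) : ℤ)) = - a i := ham (2 ^ b) (by rw [pow_succ, mul_comm])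
  -- the model sequence
  let ξ : TSq τ (2 ^ b) := ⟨cybG τ (2 ^ b) (fun i => pw n (a i)), cybG_mem τ hk _⟩
  have hstep : ∀ i : ℤ, θ ((ξ : ℤ → P) (i + ((2 ^ b : ℕ) : ℤ))) =
      pw (θ n) (a (i + ((2 ^ b : ℕ) : ℤ))) ↔ θ ((ξ : ℤ → P) i) = pw (θ n) (a i) := by
    intro i
    have h1 : (ξ : ℤ → P) (i + ((2 ^ b : ℕ) : ℤ)) = τ ((ξ : ℤ → P) i) := ξ.2 i
    rw [h1, hθτ, hak, pw_neg hθn]
    exact inv_inj
  have hall : ∀ (m i : ℤ), θ ((ξ : ℤ → P) (i + ((2 ^ b : ℕ) : ℤ) * m)) =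
      pw (θ n) (a (i + ((2 ^ b : ℕ) : ℤ) * m)) ↔ θ ((ξ : ℤ → P) i) = pw (θ n) (a i) := by
    intro m
    induction m using Int.induction_on with
    | zero => intro i; rw [mul_zero, add_zero]
    | succ m ih =>
      intro i
      have h1 : i + ((2 ^ b : ℕ) : ℤ) * ((m : ℤ) + 1) =
        (i + ((2 ^ b : ℕ) : ℤ) * m) + ((2 ^ b : ℕ) : ℤ) := by ring
      rw [h1, hstep, ih]
    | pred m ih =>
      intro i
      have h1 := hstep (i + ((2 ^ b : ℕ) : ℤ) * (-(m : ℤ) - 1))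
      have h3 : i + ((2 ^ b : ℕ) : ℤ) * (-(m : ℤ) - 1) + ((2 ^ b : ℕ) : ℤ) =
        i + ((2 ^ b : ℕ) : ℤ) * (-(m : ℤ)) := by ring
      rw [h3, ih] at h1
      exact h1.symm
  have hθξ : ∀ i, θ ((ξ : ℤ → P) i) = pw (θ n) (a i) := by
    intro i
    have h1 := hall (i / ((2 ^ b : ℕ) : ℤ)) (i % ((2 ^ b : ℕ) : ℤ))
    rw [Int.emod_add_mul_ediv] at h1
    rw [h1]
    show θ ((τ ^ ((i % ((2 ^ b : ℕ) : ℤ)) / ((2 ^ b : ℕ) : ℤ)))
      (pw n (a ((i % ((2 ^ b : ℕ) : ℤ)) % ((2 ^ b : ℕ) : ℤ))))) = _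
    have hge : 0 ≤ i % ((2 ^ b : ℕ) : ℤ) := Int.emod_nonneg _ hkz
    have hlt : i % ((2 ^ b : ℕ) : ℤ) < ((2 ^ b : ℕ) : ℤ) :=
      Int.emod_lt_of_pos _ (by exact_mod_cast hk)
    rw [Int.ediv_eq_zero_of_lt hge hlt, Int.emod_emod_of_dvd _ (dvd_refl _), zpow_zero,
      MulAut.one_apply, pw_map]
  have hξ0 : (ξ : ℤ → P) 0 = n := by
    show (τ ^ ((0 : ℤ) / ((2 ^ b : ℕ) : ℤ))) (pw n (a ((0 : ℤ) % ((2 ^ b : ℕ) : ℤ)))) = n
    rw [Int.zero_ediv, Int.zero_emod, ha0, pw_one n (by norm_num : 1 < 3)]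
    simp
  -- the subgroup N
  let N : Subgroup (TSq τ (2 ^ b)) :=
    { carrier := {x | ∀ i, (x : ℤ → P) i ∈ V}
      one_mem' := fun _ => Subgroup.one_mem _
      mul_mem' := fun ha hb i => Subgroup.mul_mem _ (ha i) (hb i)
      inv_mem' := fun ha i => Subgroup.inv_mem _ (ha i) }
  haveI hNn : N.Normal := by
    constructor
    intro x hx g i
    exact hVn.conj_mem _ (hx i) _
  let J : N → (Fin (2 ^ b) → V) := fun η t => ⟨((η : TSq τ (2 ^ b)) : ℤ → P) (t : ℤ), η.2 _⟩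
  have hJ : Function.Injective J := by
    intro η η' hηη
    apply Subtype.ext
    apply Subtype.ext
    funext i
    rw [cyb_tw' η.1.2 i, cyb_tw' η'.1.2 i]
    have hlt : i % ((2 ^ b : ℕ) : ℤ) < ((2 ^ b : ℕ) : ℤ) :=
      Int.emod_lt_of_pos _ (by exact_mod_cast hk)
    have hge : 0 ≤ i % ((2 ^ b : ℕ) : ℤ) := Int.emod_nonneg _ hkz
    have h3 := congrFun hηη ⟨(i % ((2 ^ b : ℕ) : ℤ)).toNat, by omega⟩
    have h4 := congrArg Subtype.val h3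
    have h5 : (((i % ((2 ^ b : ℕ) : ℤ)).toNat : ℕ) : ℤ) = i % ((2 ^ b : ℕ) : ℤ) :=
      Int.toNat_of_nonneg hge
    have h6 : ((η : TSq τ (2 ^ b)) : ℤ → P) (((i % ((2 ^ b : ℕ) : ℤ)).toNat : ℕ) : ℤ) =
      ((η' : TSq τ (2 ^ b)) : ℤ → P) (((i % ((2 ^ b : ℕ) : ℤ)).toNat : ℕ) : ℤ) := h4
    rw [h5] at h6
    rw [h6]
  haveI : Finite N := Finite.of_injective J hJ
  have hcard : Nat.card N ≤ 2 ^ (2 ^ (b + 1)) := by
    have h1 := Nat.card_le_card_of_injective J hJ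
    rw [Nat.card_fun, Nat.card_eq_fintype_card (α := Fin (2 ^ b)), Fintype.card_fin] at h1
    refine h1.trans ((Nat.pow_le_pow_left hV4 _).trans (le_of_eq ?_))
    rw [show (4 : ℕ) = 2 ^ 2 by norm_num, ← pow_mul, pow_succ, mul_comm]
  have hcomm : ∀ x ∈ N, ∀ y ∈ N, x * y = y * x := by
    intro x hx y hy
    apply Subtype.ext
    funext i
    exact hVc _ (hx i) _ (hy i)
  have hexp : ∀ x ∈ N, x ^ 2 = 1 := by
    intro x hx
    apply Subtype.ext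
    funext i
    exact hV2 _ (hx i)
  have hsN : ∀ x ∈ N, tsh τ (2 ^ b) x ∈ N := fun x hx i => hx (i + 1)
  have hsN' : ∀ x ∈ N, (tsh τ (2 ^ b))⁻¹ x ∈ N := fun x hx i => hx (i - 1)
  -- the constant sequence
  let zc : TSq τ (2 ^ b) := ⟨fun _ => z, fun _ => hτz.symm⟩
  have hzN : zc ∈ N := fun _ => hzV
  have hsz : tsh τ (2 ^ b) zc = zc := rfl
  have hM : ∀ x, ((tsh τ (2 ^ b)) ^ (2 ^ (b + 1))) x = zc⁻¹ * x * zc := by
    intro x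
    apply Subtype.ext
    funext i
    rw [pow_succ 2 b, cyb_sh_pow, pow_two, MulAut.mul_apply, hττ]
    show z * (x : ℤ → P) i * z⁻¹ = z⁻¹ * (x : ℤ → P) i * z
    rw [hzi]
  have hnc : zc * ξ ≠ ξ * zc := by
    intro hcon
    have h1 := congrArg Subtype.val hcon
    have h2 := congrFun h1 0
    apply hzn
    have h3 : z * (ξ : ℤ → P) 0 = (ξ : ℤ → P) 0 * z := h2
    rwa [hξ0] at h3
  rcases hcase with ⟨r, hr, hrel⟩ | ⟨r, hr, hrel⟩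
  · refine unip (tsh τ (2 ^ b)) N hcomm hexp hcard hsN hsN' hzN hsz hM (ξ := ξ) hnc hr ?_ hL.1
    intro i
    rw [← hθ1]
    show θ ((((ef (tsh τ (2 ^ b)))^[r] ξ : TSq τ (2 ^ b)) : ℤ → P) i *
      ((ξ : ℤ → P) (i + 1))⁻¹) = 1
    have h1 := coe_ef_restr (shift P) (TSq τ (2 ^ b)) (TSq_shift τ (2 ^ b)) r ξ
    have h2 := congrFun h1 i
    have h3 : (((ef (tsh τ (2 ^ b)))^[r] ξ : TSq τ (2 ^ b)) : ℤ → P) i =
      ((ef (shift P))^[r] (ξ : ℤ → P)) i := h2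
    rw [h3, map_mul, map_inv, hθξ, rel_iter θ hθn r (ξ : ℤ → P) a hθξ, hrel, mul_inv_cancel]
  · have hzN' : zc⁻¹ ∈ N := N.inv_mem hzN
    refine unip (tsh τ (2 ^ b))⁻¹ N hcomm hexp hcard hsN' (by rw [inv_inv]; exact hsN) hzN' ?_ ?_
      (ξ := ξ) ?_ hr ?_ hL.2
    · apply Subtype.ext; rfl
    · intro x
      rw [inv_inv, inv_pow]
      apply (tsh τ (2 ^ b) ^ (2 ^ (b + 1))).injective
      rw [MulAut.apply_inv_self, hM]
      group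
    · intro hcon
      apply hnc
      have h1 : Commute zc⁻¹ ξ := hcon
      exact (Commute.inv_left_iff.mp h1).eq
    intro i
    rw [← hθ1]
    show θ ((((ef (tsh τ (2 ^ b))⁻¹)^[r] ξ : TSq τ (2 ^ b)) : ℤ → P) i *
      ((ξ : ℤ → P) (i - 1))⁻¹) = 1
    have h1 := coe_ef_restr_inv (shift P) (TSq τ (2 ^ b)) (TSq_shift τ (2 ^ b)) r ξ
    have h2 := congrFun h1 i
    have h3 : (((ef (tsh τ (2 ^ b))⁻¹)^[r] ξ : TSq τ (2 ^ b)) : ℤ → P) i =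
      ((ef (shift P)⁻¹)^[r] (ξ : ℤ → P)) i := h2
    rw [h3, map_mul, map_inv, hθξ, rel_iter_inv θ hθn r (ξ : ℤ → P) a hθξ, hrel, mul_inv_cancel]

end Pool.ENR
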